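import Mathlib

/-!
# MP_09b571_gt: biharmonic hypersurfaces of the unit sphere, in the terms of the problem

A hypersurface is an immersion `φ : M → S^{m+1} ⊂ ℝ^{m+2}` of a smooth manifold; in local coordinates
`x = (x_1, …, x_m)` it is a map `f : ℝ^m → ℝ^{m+2}`. The metric of `M` is the induced one.
-/

set_option autoImplicit false

namespace BHM

open scoped Manifold ContDiff

noncomputable section

/-- coordinates of the hypersurface -/
abbrev Co (m : ℕ) := Fin m → ℝ

/-- the space of the unit sphere of dimension `m + 1` -/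
abbrev Sp (m : ℕ) := EuclideanSpace ℝ (Fin (m + 2))

variable {m : ℕ}

/-- the partial derivative `∂_i V` -/
def pd {F : Type} [NormedAddCommGroup F] [NormedSpace ℝ F] (i : Fin m) (V : Co m → F) (x : Co m) :
    F :=
  fderiv ℝ V x (Pi.single i (1 : ℝ))

/-- the induced metric `g_ij = ⟨∂_i f, ∂_j f⟩` -/
def metric (f : Co m → Sp m) (x : Co m) : Matrix (Fin m) (Fin m) ℝ :=
  Matrix.of fun i j => inner ℝ (pd i f x) (pd j f x)

/-- the Christoffel symbol `Γ^k_ij` of the induced metric -/
def Gam (f : Co m → Sp m) (k i j : Fin m) (x : Co m) : ℝ :=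
  (1 / 2) * ∑ l, (metric f x)⁻¹ k l * (pd i (fun y => metric f y j l) x +
    pd j (fun y => metric f y i l) x - pd l (fun y => metric f y i j) x)

/-- the covariant derivative `∇_i V` of a field `V` along `f` of tangent vectors of the unit sphere:
the tangential part of `∂_i V` -/
def cov (f : Co m → Sp m) (i : Fin m) (V : Co m → Sp m) (x : Co m) : Sp m :=
  pd i V x - (inner ℝ (f x) (pd i V x) : ℝ) • f x

/-- the trace `g^ij (∇_i a_j - Γ^k_ij a_k)` of the covariant derivative of a one-form `a = (a_j)`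
with values in the tangent vectors of the sphere along `f` -/
def trace (f : Co m → Sp m) (a : Fin m → Co m → Sp m) (x : Co m) : Sp m :=
  ∑ i, ∑ j, (metric f x)⁻¹ i j • (cov f i (a j) x - ∑ k, Gam f k i j x • a k x)

/-- the tension field `τ(f) = trace ∇ df` -/
def tension (f : Co m → Sp m) : Co m → Sp m := trace f fun j => pd j f

/-- the curvature `R(X, Y) Z = ⟨Y, Z⟩ X - ⟨X, Z⟩ Y` of the unit sphere -/
def curv (X Y Z : Sp m) : Sp m := (inner ℝ Y Z : ℝ) • X - (inner ℝ X Z : ℝ) • Y

/-- the bitension field `τ₂(f) = trace (∇∇ - ∇_∇) τ(f) - trace R(df, τ(f)) df` -/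
def bitension (f : Co m → Sp m) (x : Co m) : Sp m :=
  trace f (fun j => cov f j (tension f)) x -
    ∑ i, ∑ j, (metric f x)⁻¹ i j • curv (pd i f x) (tension f x) (pd j f x)

/-! ## manifolds -/

variable {M : Type*} [TopologicalSpace M] [ChartedSpace (EuclideanSpace ℝ (Fin m)) M]

/-- the expression of `φ` in the local coordinates given by the chart `e` -/
def loc (φ : M → Sp m) (e : OpenPartialHomeomorph M (EuclideanSpace ℝ (Fin m))) : Co m → Sp m :=
  fun x => φ (e.symm (WithLp.toLp 2 x))

/-- `φ : M → F` is a smooth map (`M` is a manifold modelled on `E`). -/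
def SmoothMap (E : Type*) {F M : Type*} [NormedAddCommGroup E] [NormedSpace ℝ E]
    [NormedAddCommGroup F] [NormedSpace ℝ F] [TopologicalSpace M] [ChartedSpace E M] (φ : M → F) :
    Prop :=
  ContMDiff 𝓘(ℝ, E) 𝓘(ℝ, F) ∞ φ

/-- The derivative of `φ : M → F` is injective at all points. -/
def Immersive (E : Type*) {F M : Type*} [NormedAddCommGroup E] [NormedSpace ℝ E]
    [NormedAddCommGroup F] [NormedSpace ℝ F] [TopologicalSpace M] [ChartedSpace E M] (φ : M → F) :
    Prop :=
  ∀ p, Function.Injective (mfderiv 𝓘(ℝ, E) 𝓘(ℝ, F) φ p)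

/-- `φ` is an immersed hypersurface of the unit sphere. -/
structure Hypersurface (φ : M → Sp m) : Prop where
  smooth : SmoothMap (EuclideanSpace ℝ (Fin m)) φ
  sphere : ∀ p, ‖φ p‖ = 1
  immersion : Immersive (EuclideanSpace ℝ (Fin m)) φ

/-- The bitension field of `φ` is zero. -/
def Biharmonic (φ : M → Sp m) : Prop :=
  ∀ e ∈ atlas (EuclideanSpace ℝ (Fin m)) M, ∀ p ∈ e.source,
    bitension (loc φ e) (WithLp.ofLp (e p)) = 0

/-- The mean curvature vector field `H = τ(φ) / m` at `p`, computed in the chart `e`. -/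
def meanCurvature (φ : M → Sp m) (e : OpenPartialHomeomorph M (EuclideanSpace ℝ (Fin m))) (p : M) :
    Sp m :=
  (1 / (m : ℝ)) • tension (loc φ e) (WithLp.ofLp (e p))

end

end BHM
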