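import Pool.Agent.BHM.Defs
import Pool.Agent.Lib_helper71.BH.Main

/-!
# Local computations for hypersurfaces of the unit sphere
-/

set_option autoImplicit false

namespace BHM

noncomputable section

/-- `C^∞` -/
abbrev sm : WithTop ℕ∞ := ((⊤ : ℕ∞) : WithTop ℕ∞)

variable {m : ℕ}

/-- a local parametrisation with a unit normal -/
structure Patch (m : ℕ) where
  U : Set (Co m)
  f : Co m → Sp m
  N : Co m → Sp m
  hU : IsOpen U
  hf : ContDiffOn ℝ sm f U
  hN : ContDiffOn ℝ sm N U
  ff : ∀ x ∈ U, inner ℝ (f x) (f x) = (1 : ℝ)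
  NN : ∀ x ∈ U, inner ℝ (N x) (N x) = (1 : ℝ)
  Nf : ∀ x ∈ U, inner ℝ (N x) (f x) = (0 : ℝ)
  NDf : ∀ x ∈ U, ∀ i, inner ℝ (N x) (pd i f x) = (0 : ℝ)
  li : ∀ x ∈ U, LinearIndependent ℝ fun i => pd i f x

section calculus

variable {F : Type} [NormedAddCommGroup F] [NormedSpace ℝ F] {U : Set (Co m)}

theorem smp (hU : IsOpen U) {V : Co m → F} (hV : ContDiffOn ℝ sm V U) (i : Fin m) :
    ContDiffOn ℝ sm (pd i V) U := by
  have h1 : ContDiffOn ℝ sm (fderiv ℝ V) U := hV.fderiv_of_isOpen hU (by simp)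
  exact h1.clm_apply contDiffOn_const

theorem dif (hU : IsOpen U) {V : Co m → F} (hV : ContDiffOn ℝ sm V U) {x : Co m} (hx : x ∈ U) :
    DifferentiableAt ℝ V x :=
  (hV.contDiffAt (hU.mem_nhds hx)).differentiableAt (by simp)

theorem pd_congr (hU : IsOpen U) {V W : Co m → F} (h : ∀ y ∈ U, V y = W y) {x : Co m} (hx : x ∈ U)
    (i : Fin m) : pd i V x = pd i W x := by
  have h1 : V =ᶠ[nhds x] W := by
    filter_upwards [hU.mem_nhds hx] with y hy using h y hy
  unfold pd
  rw [h1.fderiv_eq]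

theorem pd_const (c : F) (x : Co m) (i : Fin m) : pd i (fun _ => c) x = 0 := by
  unfold pd
  simp

theorem pd_comm (hU : IsOpen U) {V : Co m → F} (hV : ContDiffOn ℝ sm V U) {x : Co m} (hx : x ∈ U)
    (i j : Fin m) : pd i (pd j V) x = pd j (pd i V) x := by
  have h := BH.Setup.snd_symm (hV.contDiffAt (hU.mem_nhds hx)) (Pi.single j (1 : ℝ)) (Pi.single i (1 : ℝ))
  have h1 := BH.Setup.fderiv_app_const (hV.contDiffAt (hU.mem_nhds hx)) (Pi.single j (1 : ℝ))
    (Pi.single i (1 : ℝ))
  have h2 := BH.Setup.fderiv_app_const (hV.contDiffAt (hU.mem_nhds hx)) (Pi.single i (1 : ℝ))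
    (Pi.single j (1 : ℝ))
  unfold pd
  rw [h1, h2, h]

theorem pd_inner {V W : Co m → Sp m} {x : Co m} (hV : DifferentiableAt ℝ V x)
    (hW : DifferentiableAt ℝ W x) (i : Fin m) :
    pd i (fun y => (inner ℝ (V y) (W y) : ℝ)) x =
      inner ℝ (pd i V x) (W x) + inner ℝ (V x) (pd i W x) := by
  unfold pd
  rw [fderiv_inner_apply ℝ hV hW]
  ring

theorem pd_add {V W : Co m → F} {x : Co m} (hV : DifferentiableAt ℝ V x)
    (hW : DifferentiableAt ℝ W x) (i : Fin m) :
    pd i (fun y => V y + W y) x = pd i V x + pd i W x := by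
  unfold pd
  rw [fderiv_fun_add hV hW]
  rfl

theorem pd_smul {c : Co m → ℝ} {V : Co m → F} {x : Co m} (hc : DifferentiableAt ℝ c x)
    (hV : DifferentiableAt ℝ V x) (i : Fin m) :
    pd i (fun y => c y • V y) x = c x • pd i V x + pd i c x • V x := by
  unfold pd
  rw [fderiv_fun_smul hc hV]
  rfl

theorem pd_mul {c d : Co m → ℝ} {x : Co m} (hc : DifferentiableAt ℝ c x)
    (hd : DifferentiableAt ℝ d x) (i : Fin m) :
    pd i (fun y => c y * d y) x = c x * pd i d x + d x * pd i c x := by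
  unfold pd
  rw [fderiv_fun_mul hc hd]
  rfl

theorem pd_sum {ι : Type} {s : Finset ι} {V : ι → Co m → F} {x : Co m}
    (hV : ∀ k ∈ s, DifferentiableAt ℝ (V k) x) (i : Fin m) :
    pd i (fun y => ∑ k ∈ s, V k y) x = ∑ k ∈ s, pd i (V k) x := by
  unfold pd
  rw [fderiv_fun_sum hV]
  simp

end calculus

namespace Patch

variable (L : Patch m) {x : Co m}

theorem smf (i : Fin m) : ContDiffOn ℝ sm (pd i L.f) L.U := smp L.hU L.hf i

theorem smN (i : Fin m) : ContDiffOn ℝ sm (pd i L.N) L.U := smp L.hU L.hN i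

theorem f_pf (hx : x ∈ L.U) (i : Fin m) : inner ℝ (L.f x) (pd i L.f x) = (0 : ℝ) := by
  have h1 := pd_inner (dif L.hU L.hf hx) (dif L.hU L.hf hx) i
  rw [pd_congr L.hU L.ff hx, pd_const, real_inner_comm] at h1
  linarith

theorem N_pN (hx : x ∈ L.U) (i : Fin m) : inner ℝ (L.N x) (pd i L.N x) = (0 : ℝ) := by
  have h1 := pd_inner (dif L.hU L.hN hx) (dif L.hU L.hN hx) i
  rw [pd_congr L.hU L.NN hx, pd_const, real_inner_comm] at h1
  linarith

theorem f_pN (hx : x ∈ L.U) (i : Fin m) : inner ℝ (L.f x) (pd i L.N x) = (0 : ℝ) := by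
  have h1 := pd_inner (dif L.hU L.hN hx) (dif L.hU L.hf hx) i
  rw [pd_congr L.hU L.Nf hx, pd_const, L.NDf x hx, real_inner_comm] at h1
  linarith

theorem metric_symm (f : Co m → Sp m) (x : Co m) (i j : Fin m) : metric f x i j = metric f x j i := by
  unfold metric
  rw [Matrix.of_apply, Matrix.of_apply, real_inner_comm]

theorem metric_T (f : Co m → Sp m) (x : Co m) : (metric f x).transpose = metric f x := by
  ext i j
  rw [Matrix.transpose_apply, metric_symm]

theorem posDef (hx : x ∈ L.U) : (metric L.f x).PosDef :=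
  Matrix.posDef_gram_of_linearIndependent (𝕜 := ℝ) (L.li x hx)

theorem det_pos (hx : x ∈ L.U) : 0 < (metric L.f x).det := (L.posDef hx).det_pos

theorem inv_mul (hx : x ∈ L.U) : (metric L.f x)⁻¹ * metric L.f x = 1 :=
  Matrix.nonsing_inv_mul _ (L.det_pos hx).ne'.isUnit

theorem mul_inv (hx : x ∈ L.U) : metric L.f x * (metric L.f x)⁻¹ = 1 :=
  Matrix.mul_nonsing_inv _ (L.det_pos hx).ne'.isUnit

theorem inv_T (f : Co m → Sp m) (x : Co m) : ((metric f x)⁻¹).transpose = (metric f x)⁻¹ := by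
  rw [Matrix.transpose_nonsing_inv, metric_T]

theorem inv_symm (f : Co m → Sp m) (x : Co m) (i j : Fin m) :
    (metric f x)⁻¹ i j = (metric f x)⁻¹ j i := by
  conv_lhs => rw [← inv_T]
  rfl

theorem sm_metric (i j : Fin m) : ContDiffOn ℝ sm (fun y => metric L.f y i j) L.U := by
  unfold metric
  simp only [Matrix.of_apply]
  exact (L.smf i).inner ℝ (L.smf j)

theorem sm_inv (i j : Fin m) : ContDiffOn ℝ sm (fun y => (metric L.f y)⁻¹ i j) L.U :=
  BH.Geo3.inv_smooth (fun i j => L.sm_metric i j) (fun _ hx => (L.det_pos hx).ne') i j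

theorem sm_Gam (k i j : Fin m) : ContDiffOn ℝ sm (Gam L.f k i j) L.U := by
  unfold Gam
  refine contDiffOn_const.mul (ContDiffOn.sum fun l _ => (L.sm_inv k l).mul ?_)
  exact ((smp L.hU (L.sm_metric j l) i).add (smp L.hU (L.sm_metric i l) j)).sub
    (smp L.hU (L.sm_metric i j) l)

/-- the second fundamental form -/
def h (x : Co m) : Matrix (Fin m) (Fin m) ℝ := Matrix.of fun i j => inner ℝ (pd j (pd i L.f) x) (L.N x)

theorem h_symm (hx : x ∈ L.U) (i j : Fin m) : L.h x i j = L.h x j i := by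
  unfold h
  rw [Matrix.of_apply, Matrix.of_apply, pd_comm L.hU L.hf hx]

theorem h_T (hx : x ∈ L.U) : (L.h x).transpose = L.h x := by
  ext i j
  rw [Matrix.transpose_apply, L.h_symm hx]

theorem sm_h (i j : Fin m) : ContDiffOn ℝ sm (fun y => L.h y i j) L.U := by
  unfold h
  simp only [Matrix.of_apply]
  exact (smp L.hU (L.smf i) j).inner ℝ L.hN

theorem pf_pN (hx : x ∈ L.U) (i j : Fin m) :
    inner ℝ (pd i L.f x) (pd j L.N x) = - L.h x i j := by
  have h1 := pd_inner (dif L.hU (L.smf i) hx) (dif L.hU L.hN hx) j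
  rw [pd_congr L.hU (W := fun _ => (0 : ℝ)) (fun y hy => by
    rw [real_inner_comm]; exact L.NDf y hy i) hx, pd_const] at h1
  unfold h
  rw [Matrix.of_apply]
  linarith

theorem ppf_f (hx : x ∈ L.U) (i j : Fin m) :
    inner ℝ (L.f x) (pd i (pd j L.f) x) = - metric L.f x i j := by
  have h1 := pd_inner (dif L.hU L.hf hx) (dif L.hU (L.smf j) hx) i
  rw [pd_congr L.hU (fun y hy => L.f_pf hy j) hx, pd_const] at h1
  unfold metric
  rw [Matrix.of_apply]
  linarith

theorem ppf_N (hx : x ∈ L.U) (i j : Fin m) :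
    inner ℝ (L.N x) (pd i (pd j L.f) x) = L.h x i j := by
  rw [L.h_symm hx, real_inner_comm]
  rfl

theorem d_metric (hx : x ∈ L.U) (l i j : Fin m) :
    pd l (fun y => metric L.f y i j) x =
      inner ℝ (pd l (pd i L.f) x) (pd j L.f x) + inner ℝ (pd i L.f x) (pd l (pd j L.f) x) := by
  unfold metric
  simp only [Matrix.of_apply]
  exact pd_inner (dif L.hU (L.smf i) hx) (dif L.hU (L.smf j) hx) l

/-- lowering the index of the Christoffel symbols -/
theorem Gam_lower (hx : x ∈ L.U) (i j l : Fin m) :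
    ∑ k, Gam L.f k i j x * metric L.f x k l = inner ℝ (pd i (pd j L.f) x) (pd l L.f x) := by
  have h1 : ∀ p, pd i (fun y => metric L.f y j p) x + pd j (fun y => metric L.f y i p) x -
      pd p (fun y => metric L.f y i j) x = 2 * inner ℝ (pd i (pd j L.f) x) (pd p L.f x) := by
    intro p
    rw [L.d_metric hx, L.d_metric hx, L.d_metric hx, pd_comm L.hU L.hf hx j i,
      pd_comm L.hU L.hf hx i p, pd_comm L.hU L.hf hx j p,
      real_inner_comm (pd j L.f x) (pd p (pd i L.f) x)]
    ring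
  have h2 : ∀ k, Gam L.f k i j x = ∑ p, (metric L.f x)⁻¹ k p * inner ℝ (pd i (pd j L.f) x) (pd p L.f x) := by
    intro k
    unfold Gam
    rw [Finset.mul_sum]
    refine Finset.sum_congr rfl fun p _ => ?_
    rw [h1]
    ring
  simp only [h2, Finset.sum_mul]
  rw [Finset.sum_comm]
  have h3 : ∀ p, ∑ k, (metric L.f x)⁻¹ k p * inner ℝ (pd i (pd j L.f) x) (pd p L.f x) * metric L.f x k l =
      inner ℝ (pd i (pd j L.f) x) (pd p L.f x) * (1 : Matrix (Fin m) (Fin m) ℝ) p l := by
    intro p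
    rw [← L.inv_mul hx, Matrix.mul_apply, Finset.mul_sum]
    refine Finset.sum_congr rfl fun k _ => ?_
    rw [inv_symm L.f x k p]
    ring
  rw [Finset.sum_congr rfl fun p _ => h3 p]
  simp [Matrix.one_apply]

theorem Gam_symm (hx : x ∈ L.U) (k i j : Fin m) : Gam L.f k i j x = Gam L.f k j i x := by
  unfold Gam
  congr 1
  refine Finset.sum_congr rfl fun l _ => ?_
  rw [pd_congr L.hU (fun y _ => metric_symm L.f y i j) hx l]
  ring

/-- a vector orthogonal to `f`, `N` and the tangent vectors is zero -/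
theorem eq_zero (hx : x ∈ L.U) {w : Sp m} (h1 : inner ℝ (L.f x) w = (0 : ℝ))
    (h2 : inner ℝ (L.N x) w = (0 : ℝ)) (h3 : ∀ i, inner ℝ (pd i L.f x) w = (0 : ℝ)) : w = 0 := by
  let b : Fin (m + 2) → Sp m := Fin.cons (L.f x) (Fin.cons (L.N x) fun i => pd i L.f x)
  have hli : LinearIndependent ℝ b := by
    rw [Fintype.linearIndependent_iff]
    intro c hc
    have hs : ∑ i, c i • b i = c 0 • L.f x + (c 1 • L.N x + ∑ i : Fin m, c i.succ.succ • pd i L.f x) := by
      rw [Fin.sum_univ_succ, Fin.sum_univ_succ]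
      rfl
    rw [hs] at hc
    have hfN : inner ℝ (L.f x) (L.N x) = (0 : ℝ) := by rw [real_inner_comm]; exact L.Nf x hx
    have h0 : c 0 = 0 := by
      have h4 := congrArg (fun v => (inner ℝ (L.f x) v : ℝ)) hc
      simp only [inner_add_right, inner_sum, real_inner_smul_right, L.ff x hx, hfN, L.f_pf hx,
        inner_zero_right, mul_zero, mul_one, Finset.sum_const_zero, add_zero] at h4
      exact h4
    have h1' : c 1 = 0 := by
      have h4 := congrArg (fun v => (inner ℝ (L.N x) v : ℝ)) hc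
      simp only [inner_add_right, inner_sum, real_inner_smul_right, L.NN x hx, L.Nf x hx,
        L.NDf x hx, inner_zero_right, mul_zero, mul_one, Finset.sum_const_zero, add_zero,
        zero_add] at h4
      exact h4
    rw [h0, h1', zero_smul, zero_smul, zero_add, zero_add] at hc
    have h5 := Fintype.linearIndependent_iff.1 (L.li x hx) _ hc
    intro i
    refine Fin.cases h0 (fun j => ?_) i
    refine Fin.cases h1' (fun k => h5 k) j
  have hsp : Submodule.span ℝ (Set.range b) = ⊤ :=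
    hli.span_eq_top_of_card_eq_finrank (by simp)
  have hall : ∀ v ∈ Submodule.span ℝ (Set.range b), inner ℝ v w = (0 : ℝ) := by
    intro v hv
    induction hv using Submodule.span_induction with
    | mem v hv =>
      obtain ⟨i, rfl⟩ := hv
      refine Fin.cases h1 (fun j => ?_) i
      exact Fin.cases h2 (fun k => h3 k) j
    | zero => simp
    | add u v _ _ hu hv => rw [inner_add_left, hu, hv, add_zero]
    | smul c v _ hv => rw [real_inner_smul_left, hv, mul_zero]
  exact inner_self_eq_zero.1 (hall w (hsp ▸ Submodule.mem_top))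

/-- two vectors with the same scalar products are equal -/
theorem eq_of (hx : x ∈ L.U) {v w : Sp m} (h1 : inner ℝ (L.f x) v = (inner ℝ (L.f x) w : ℝ))
    (h2 : inner ℝ (L.N x) v = (inner ℝ (L.N x) w : ℝ))
    (h3 : ∀ i, inner ℝ (pd i L.f x) v = (inner ℝ (pd i L.f x) w : ℝ)) : v = w := by
  have h := L.eq_zero hx (w := v - w) (by rw [inner_sub_right, h1, sub_self])
    (by rw [inner_sub_right, h2, sub_self]) fun i => by rw [inner_sub_right, h3, sub_self]
  exact sub_eq_zero.1 h

theorem f_N (hx : x ∈ L.U) : inner ℝ (L.f x) (L.N x) = (0 : ℝ) := by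
  rw [real_inner_comm]; exact L.Nf x hx

theorem pf_f (hx : x ∈ L.U) (i : Fin m) : inner ℝ (pd i L.f x) (L.f x) = (0 : ℝ) := by
  rw [real_inner_comm]; exact L.f_pf hx i

theorem pf_N (hx : x ∈ L.U) (i : Fin m) : inner ℝ (pd i L.f x) (L.N x) = (0 : ℝ) := by
  rw [real_inner_comm]; exact L.NDf x hx i

/-- the formula of Gauss -/
theorem gauss (hx : x ∈ L.U) (i j : Fin m) : pd i (pd j L.f) x =
    ∑ k, Gam L.f k i j x • pd k L.f x + L.h x i j • L.N x - metric L.f x i j • L.f x := by
  refine L.eq_of hx ?_ ?_ fun l => ?_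
  · simp only [inner_sub_right, inner_add_right, inner_sum, real_inner_smul_right, L.ff x hx,
      L.f_N hx, L.f_pf hx, L.ppf_f hx, mul_zero, Finset.sum_const_zero]
    ring
  · simp only [inner_sub_right, inner_add_right, inner_sum, real_inner_smul_right, L.NN x hx,
      L.Nf x hx, L.NDf x hx, L.ppf_N hx, mul_zero, Finset.sum_const_zero]
    ring
  · simp only [inner_sub_right, inner_add_right, inner_sum, real_inner_smul_right, L.pf_f hx,
      L.pf_N hx, mul_zero, sub_zero, add_zero]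
    rw [real_inner_comm, ← L.Gam_lower hx]
    refine Finset.sum_congr rfl fun k _ => ?_
    rw [metric_symm]
    rfl

/-- the shape operator -/
def S (x : Co m) : Matrix (Fin m) (Fin m) ℝ := (metric L.f x)⁻¹ * L.h x

/-- the formula of Weingarten -/
theorem weingarten (hx : x ∈ L.U) (j : Fin m) : pd j L.N x = - ∑ k, L.S x k j • pd k L.f x := by
  refine L.eq_of hx ?_ ?_ fun l => ?_
  · simp only [inner_neg_right, inner_sum, real_inner_smul_right, L.f_pf hx, L.f_pN hx, mul_zero,
      Finset.sum_const_zero, neg_zero]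
  · simp only [inner_neg_right, inner_sum, real_inner_smul_right, L.NDf x hx, L.N_pN hx, mul_zero,
      Finset.sum_const_zero, neg_zero]
  · rw [L.pf_pN hx, inner_neg_right, inner_sum]
    congr 1
    have h1 : L.h x = metric L.f x * L.S x := by
      unfold S
      rw [← mul_assoc, L.mul_inv hx, one_mul]
    conv_lhs => rw [h1, Matrix.mul_apply]
    refine Finset.sum_congr rfl fun k _ => ?_
    rw [real_inner_smul_right, mul_comm]
    rfl

end Patch

end

end BHM
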