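import Pool.Agent.BHM.Local

/-!
# The equations of Codazzi, the Laplacian, and the bitension field
-/

set_option autoImplicit false

namespace BHM

noncomputable section

variable {m : ℕ}

namespace Patch

variable (L : Patch m) {x : Co m}

/-- the matrix `Γ^p_lj` -/
def Cm (f : Co m → Sp m) (x : Co m) (l : Fin m) : Matrix (Fin m) (Fin m) ℝ :=
  Matrix.of fun p j => Gam f p l j x

/-- the derivative of the metric -/
def dg (f : Co m → Sp m) (x : Co m) (l : Fin m) : Matrix (Fin m) (Fin m) ℝ :=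
  Matrix.of fun i j => pd l (fun y => metric f y i j) x

/-- the derivative of the inverse metric -/
def dG (f : Co m → Sp m) (x : Co m) (l : Fin m) : Matrix (Fin m) (Fin m) ℝ :=
  Matrix.of fun i j => pd l (fun y => (metric f y)⁻¹ i j) x

theorem dg_eq (hx : x ∈ L.U) (l : Fin m) :
    dg L.f x l = (Cm L.f x l).transpose * metric L.f x + metric L.f x * Cm L.f x l := by
  ext i j
  rw [dg, Matrix.of_apply, L.d_metric hx, Matrix.add_apply, Matrix.mul_apply, Matrix.mul_apply]
  congr 1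
  · rw [← L.Gam_lower hx]
    rfl
  · rw [real_inner_comm, ← L.Gam_lower hx]
    refine Finset.sum_congr rfl fun k _ => ?_
    rw [metric_symm, mul_comm]
    rfl

theorem dG_mul (hx : x ∈ L.U) (l : Fin m) :
    dG L.f x l * metric L.f x + (metric L.f x)⁻¹ * dg L.f x l = 0 := by
  ext i j
  have h1 : pd l (fun y => ∑ k, (metric L.f y)⁻¹ i k * metric L.f y k j) x = 0 := by
    have h2 : ∀ y ∈ L.U, ∑ k, (metric L.f y)⁻¹ i k * metric L.f y k j =
        (1 : Matrix (Fin m) (Fin m) ℝ) i j := by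
      intro y hy
      rw [← L.inv_mul hy, Matrix.mul_apply]
    rw [pd_congr L.hU h2 hx, pd_const]
  rw [pd_sum (fun k _ => (dif L.hU ((L.sm_inv i k).mul (L.sm_metric k j)) hx))] at h1
  have h3 : ∀ k, pd l (fun y => (metric L.f y)⁻¹ i k * metric L.f y k j) x =
      (metric L.f x)⁻¹ i k * dg L.f x l k j + dG L.f x l i k * metric L.f x k j := by
    intro k
    rw [pd_mul (dif L.hU (L.sm_inv i k) hx) (dif L.hU (L.sm_metric k j) hx)]
    rw [dg, dG, Matrix.of_apply, Matrix.of_apply]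
    ring
  rw [Finset.sum_congr rfl fun k _ => h3 k, Finset.sum_add_distrib] at h1
  rw [Matrix.add_apply, Matrix.mul_apply, Matrix.mul_apply, Matrix.zero_apply]
  linarith

theorem dG_eq (hx : x ∈ L.U) (l : Fin m) :
    dG L.f x l = - ((metric L.f x)⁻¹ * (Cm L.f x l).transpose) - Cm L.f x l * (metric L.f x)⁻¹ := by
  have h1 := L.dG_mul hx l
  have h2 : dG L.f x l = - ((metric L.f x)⁻¹ * dg L.f x l * (metric L.f x)⁻¹) := by
    have h3 : dG L.f x l * metric L.f x = - ((metric L.f x)⁻¹ * dg L.f x l) :=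
      eq_neg_of_add_eq_zero_left h1
    calc dG L.f x l = dG L.f x l * (metric L.f x * (metric L.f x)⁻¹) := by
          rw [L.mul_inv hx, mul_one]
      _ = dG L.f x l * metric L.f x * (metric L.f x)⁻¹ := by rw [mul_assoc]
      _ = _ := by rw [h3, neg_mul]
  rw [h2, L.dg_eq hx, mul_add, add_mul, neg_add]
  have h4 : (metric L.f x)⁻¹ * ((Cm L.f x l).transpose * metric L.f x) * (metric L.f x)⁻¹ =
      (metric L.f x)⁻¹ * (Cm L.f x l).transpose := by
    rw [← mul_assoc, mul_assoc _ (metric L.f x), L.mul_inv hx, mul_one]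
  have h5 : (metric L.f x)⁻¹ * (metric L.f x * Cm L.f x l) * (metric L.f x)⁻¹ =
      Cm L.f x l * (metric L.f x)⁻¹ := by
    rw [← mul_assoc, L.inv_mul hx, one_mul]
  rw [h4, h5]
  abel

theorem dG_apply (hx : x ∈ L.U) (l i j : Fin m) : pd l (fun y => (metric L.f y)⁻¹ i j) x =
    - (∑ p, (metric L.f x)⁻¹ i p * Gam L.f j l p x) - ∑ p, Gam L.f i l p x * (metric L.f x)⁻¹ p j := by
  have h1 : pd l (fun y => (metric L.f y)⁻¹ i j) x = dG L.f x l i j := rfl
  rw [h1, L.dG_eq hx, Matrix.sub_apply, Matrix.neg_apply, Matrix.mul_apply, Matrix.mul_apply]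
  rfl

/-- the derivative of the volume density -/
theorem d_sqrt (hx : x ∈ L.U) (l : Fin m) :
    pd l (fun y => Real.sqrt (metric L.f y).det) x =
      Real.sqrt (metric L.f x).det * ∑ p, Gam L.f p l p x := by
  have hd : ∀ i j, HasFDerivAt (fun y => metric L.f y i j)
      (fderiv ℝ (fun y => metric L.f y i j) x) x := fun i j =>
    (dif L.hU (L.sm_metric i j) hx).hasFDerivAt
  have h1 := BH.hasFDerivAt_det (metric L.f) (fun i j => fderiv ℝ (fun y => metric L.f y i j) x) x hd
  have h2 := h1.sqrt (L.det_pos hx).ne'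
  have h3 : pd l (fun y => Real.sqrt (metric L.f y).det) x =
      (1 / (2 * Real.sqrt (metric L.f x).det)) *
        ∑ i, ∑ k, (metric L.f x).adjugate i k * dg L.f x l k i := by
    unfold pd
    rw [h2.fderiv]
    simp only [_root_.smul_apply, _root_.sum_apply, smul_eq_mul]
    rfl
  have hadj : (metric L.f x).adjugate = (metric L.f x).det • (metric L.f x)⁻¹ := by
    have h4 : (metric L.f x)⁻¹ = ((metric L.f x).det)⁻¹ • (metric L.f x).adjugate := by
      rw [Matrix.inv_def, Ring.inverse_eq_inv']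
    rw [h4, smul_smul, mul_inv_cancel₀ (L.det_pos hx).ne', one_smul]
  have h5 : ∑ i, ∑ k, (metric L.f x).adjugate i k * dg L.f x l k i =
      (metric L.f x).det * (2 * ∑ p, Gam L.f p l p x) := by
    have h6 : ∑ i, ∑ k, (metric L.f x).adjugate i k * dg L.f x l k i =
        ((metric L.f x).adjugate * dg L.f x l).trace := by
      simp only [Matrix.trace, Matrix.diag_apply, Matrix.mul_apply]
    have h7 : ((metric L.f x)⁻¹ * dg L.f x l).trace = 2 * ∑ p, Gam L.f p l p x := by
      have h8 : (Cm L.f x l).trace = ∑ p, Gam L.f p l p x := rfl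
      rw [L.dg_eq hx, mul_add, Matrix.trace_add, ← mul_assoc, ← mul_assoc, L.inv_mul hx, one_mul,
        Matrix.trace_mul_cycle, L.mul_inv hx, one_mul, Matrix.trace_transpose, h8]
      ring
    rw [h6, hadj, Matrix.smul_mul, Matrix.trace_smul, smul_eq_mul, h7]
  rw [h3, h5]
  have h9 : Real.sqrt (metric L.f x).det ≠ 0 := (Real.sqrt_pos.2 (L.det_pos hx)).ne'
  have h10 : (metric L.f x).det = Real.sqrt (metric L.f x).det * Real.sqrt (metric L.f x).det :=
    (Real.mul_self_sqrt (L.det_pos hx).le).symm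
  have h11 : (1 / (2 * Real.sqrt (metric L.f x).det)) *
      ((Real.sqrt (metric L.f x).det * Real.sqrt (metric L.f x).det) *
        (2 * ∑ p, Gam L.f p l p x)) = Real.sqrt (metric L.f x).det * ∑ p, Gam L.f p l p x := by
    field_simp
  rw [← h10] at h11
  exact h11

/-- the Laplacian in divergence form -/
theorem lap (hx : x ∈ L.U) (u : Co m → ℝ) (hu : ContDiffOn ℝ sm u L.U) :
    (1 / Real.sqrt (metric L.f x).det) *
      ∑ i, pd i (fun y => Real.sqrt (metric L.f y).det *
        ∑ j, (metric L.f y)⁻¹ i j * pd j u y) x =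
    ∑ i, ∑ j, (metric L.f x)⁻¹ i j * (pd i (pd j u) x - ∑ k, Gam L.f k i j x * pd k u x) := by
  have h9 : Real.sqrt (metric L.f x).det ≠ 0 := (Real.sqrt_pos.2 (L.det_pos hx)).ne'
  have hs : ∀ i, ContDiffOn ℝ sm (fun y => ∑ j, (metric L.f y)⁻¹ i j * pd j u y) L.U := fun i =>
    ContDiffOn.sum fun j _ => (L.sm_inv i j).mul (smp L.hU hu j)
  have hsq : DifferentiableAt ℝ (fun y => Real.sqrt (metric L.f y).det) x := by
    have h1 : ContDiffOn ℝ sm (fun y => (metric L.f y).det) L.U :=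
      BH.Geo3.det_smooth fun i j => L.sm_metric i j
    exact (dif L.hU h1 hx).sqrt (L.det_pos hx).ne'
  have h1 : ∀ i, pd i (fun y => Real.sqrt (metric L.f y).det *
        ∑ j, (metric L.f y)⁻¹ i j * pd j u y) x = Real.sqrt (metric L.f x).det *
      ((∑ j, ((metric L.f x)⁻¹ i j * pd i (pd j u) x + pd j u x *
        (- (∑ p, (metric L.f x)⁻¹ i p * Gam L.f j i p x) -
          ∑ p, Gam L.f i i p x * (metric L.f x)⁻¹ p j))) +
        (∑ j, (metric L.f x)⁻¹ i j * pd j u x) * ∑ p, Gam L.f p i p x) := by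
    intro i
    rw [pd_mul hsq (dif L.hU (hs i) hx), L.d_sqrt hx,
      pd_sum (fun j _ => dif L.hU ((L.sm_inv i j).mul (smp L.hU hu j)) hx)]
    have h2 : ∀ j, pd i (fun y => (metric L.f y)⁻¹ i j * pd j u y) x =
        (metric L.f x)⁻¹ i j * pd i (pd j u) x + pd j u x *
        (- (∑ p, (metric L.f x)⁻¹ i p * Gam L.f j i p x) -
          ∑ p, Gam L.f i i p x * (metric L.f x)⁻¹ p j) := by
      intro j
      rw [pd_mul (dif L.hU (L.sm_inv i j) hx) (dif L.hU (smp L.hU hu j) hx), L.dG_apply hx]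
    rw [Finset.sum_congr rfl fun j _ => h2 j]
    ring
  rw [Finset.sum_congr rfl fun i _ => h1 i, ← Finset.mul_sum, ← mul_assoc, one_div,
    inv_mul_cancel₀ h9, one_mul]
  -- the sums
  have e1 : ∑ i, ∑ j, pd j u x * ∑ p, (metric L.f x)⁻¹ i p * Gam L.f j i p x =
      ∑ i, ∑ j, (metric L.f x)⁻¹ i j * ∑ k, Gam L.f k i j x * pd k u x := by
    refine Finset.sum_congr rfl fun i _ => ?_
    simp only [Finset.mul_sum]
    rw [Finset.sum_comm]
    refine Finset.sum_congr rfl fun j _ => Finset.sum_congr rfl fun k _ => ?_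
    ring
  have e2 : ∑ i, ∑ j, pd j u x * ∑ p, Gam L.f i i p x * (metric L.f x)⁻¹ p j =
      ∑ i, (∑ j, (metric L.f x)⁻¹ i j * pd j u x) * ∑ p, Gam L.f p i p x := by
    have e3 : ∑ i, ∑ j, pd j u x * ∑ p, Gam L.f i i p x * (metric L.f x)⁻¹ p j =
        ∑ p, ∑ i, ∑ j, pd j u x * (Gam L.f i i p x * (metric L.f x)⁻¹ p j) := by
      simp only [Finset.mul_sum]
      rw [Finset.sum_comm]
      rw [Finset.sum_congr rfl fun j _ => Finset.sum_comm, Finset.sum_comm]
      refine Finset.sum_congr rfl fun p _ => Finset.sum_comm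
    rw [e3]
    refine Finset.sum_congr rfl fun p _ => ?_
    rw [Finset.mul_sum]
    refine Finset.sum_congr rfl fun i _ => ?_
    rw [Finset.sum_mul]
    refine Finset.sum_congr rfl fun j _ => ?_
    rw [L.Gam_symm hx i i p]
    ring
  simp only [Finset.sum_add_distrib, mul_sub, Finset.sum_sub_distrib, mul_neg,
    Finset.sum_neg_distrib]
  rw [e1, e2]
  ring

end Patch

end

end BHM
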