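import Pool.Agent.BHM.Local2

/-!
# The tension and bitension fields of a hypersurface
-/

set_option autoImplicit false

namespace BHM

noncomputable section

variable {m : ℕ}

namespace Patch

variable (L : Patch m) {x : Co m}

/-- the trace of the shape operator -/
def t (x : Co m) : ℝ := (L.S x).trace

theorem t_eq (x : Co m) : L.t x = ∑ i, ∑ j, (metric L.f x)⁻¹ i j * L.h x j i := by
  simp only [t, S, Matrix.trace, Matrix.diag_apply, Matrix.mul_apply]

theorem sm_t : ContDiffOn ℝ sm L.t L.U := by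
  have h1 : L.t = fun x => ∑ i, ∑ j, (metric L.f x)⁻¹ i j * L.h x j i := funext L.t_eq
  rw [h1]
  exact ContDiffOn.sum fun i _ => ContDiffOn.sum fun j _ => (L.sm_inv i j).mul (L.sm_h j i)

theorem cov_pd (hx : x ∈ L.U) (i j : Fin m) :
    cov L.f i (pd j L.f) x - ∑ k, Gam L.f k i j x • pd k L.f x = L.h x i j • L.N x := by
  unfold cov
  rw [L.ppf_f hx, L.gauss hx]
  simp only [neg_smul]
  abel

theorem tension_eq (hx : x ∈ L.U) : tension L.f x = L.t x • L.N x := by
  unfold tension trace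
  simp only [L.cov_pd hx]
  rw [L.t_eq, Finset.sum_smul]
  refine Finset.sum_congr rfl fun i _ => ?_
  rw [Finset.sum_smul]
  refine Finset.sum_congr rfl fun j _ => ?_
  rw [smul_smul, L.h_symm hx i j]

/-- the derivative of the tension field -/
def aa (j : Fin m) (y : Co m) : Sp m := L.t y • pd j L.N y + pd j L.t y • L.N y

theorem sm_aa (j : Fin m) : ContDiffOn ℝ sm (L.aa j) L.U := by
  unfold aa
  exact (L.sm_t.smul (L.smN j)).add ((smp L.hU L.sm_t j).smul L.hN)

theorem f_aa (hx : x ∈ L.U) (j : Fin m) : inner ℝ (L.f x) (L.aa j x) = (0 : ℝ) := by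
  unfold aa
  rw [inner_add_right, real_inner_smul_right, real_inner_smul_right, L.f_pN hx, L.f_N hx]
  ring

theorem N_aa (hx : x ∈ L.U) (j : Fin m) : inner ℝ (L.N x) (L.aa j x) = pd j L.t x := by
  unfold aa
  rw [inner_add_right, real_inner_smul_right, real_inner_smul_right, L.N_pN hx, L.NN x hx]
  ring

theorem pf_aa (hx : x ∈ L.U) (l j : Fin m) :
    inner ℝ (pd l L.f x) (L.aa j x) = - (L.t x * L.h x l j) := by
  unfold aa
  rw [inner_add_right, real_inner_smul_right, real_inner_smul_right, L.pf_pN hx, L.pf_N hx]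
  ring

theorem cov_tension (hx : x ∈ L.U) (j : Fin m) : cov L.f j (tension L.f) x = L.aa j x := by
  have h1 : pd j (tension L.f) x = L.aa j x := by
    rw [pd_congr L.hU (fun y hy => L.tension_eq hy) hx,
      pd_smul (dif L.hU L.sm_t hx) (dif L.hU L.hN hx)]
    rfl
  unfold cov
  rw [h1, L.f_aa hx, zero_smul, sub_zero]

theorem cov_congr (hx : x ∈ L.U) {V W : Co m → Sp m} (h : ∀ y ∈ L.U, V y = W y) (i : Fin m) :
    cov L.f i V x = cov L.f i W x := by
  unfold cov
  rw [pd_congr L.hU h hx]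

theorem N_cov_aa (hx : x ∈ L.U) (i j : Fin m) :
    inner ℝ (L.N x) (cov L.f i (L.aa j) x) =
      pd i (pd j L.t) x - L.t x * ∑ k, L.S x k i * L.h x k j := by
  have h1 : inner ℝ (L.N x) (cov L.f i (L.aa j) x) = (inner ℝ (L.N x) (pd i (L.aa j) x) : ℝ) := by
    unfold cov
    rw [inner_sub_right, real_inner_smul_right, L.Nf x hx]
    ring
  have h2 := pd_inner (dif L.hU L.hN hx) (dif L.hU (L.sm_aa j) hx) i
  rw [pd_congr L.hU (fun y hy => L.N_aa hy j) hx] at h2
  have h3 : inner ℝ (pd i L.N x) (L.aa j x) = L.t x * ∑ k, L.S x k i * L.h x k j := by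
    rw [L.weingarten hx i, inner_neg_left, sum_inner]
    simp only [real_inner_smul_left, L.pf_aa hx]
    rw [Finset.mul_sum, ← Finset.sum_neg_distrib]
    refine Finset.sum_congr rfl fun k _ => ?_
    ring
  rw [h1]
  linarith

/-- the second derivatives of the normal -/
theorem pf_ppN (hx : x ∈ L.U) (l i j : Fin m) :
    inner ℝ (pd l L.f x) (pd i (pd j L.N) x) =
      - pd i (fun y => L.h y l j) x + ∑ p, Gam L.f p i l x * L.h x p j := by
  have h2 := pd_inner (dif L.hU (L.smf l) hx) (dif L.hU (L.smN j) hx) i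
  have h4 : pd i (fun y => (inner ℝ (pd l L.f y) (pd j L.N y) : ℝ)) x =
      - pd i (fun y => L.h y l j) x := by
    rw [pd_congr L.hU (fun y hy => L.pf_pN hy l j) hx]
    unfold pd
    rw [fderiv_fun_neg]
    rfl
  rw [h4] at h2
  have h3 : inner ℝ (pd i (pd l L.f) x) (pd j L.N x) = - ∑ p, Gam L.f p i l x * L.h x p j := by
    rw [L.gauss hx i l, inner_sub_left, inner_add_left, sum_inner]
    simp only [real_inner_smul_left, L.pf_pN hx, L.N_pN hx, L.f_pN hx, mul_zero, sub_zero, add_zero,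
      mul_neg, Finset.sum_neg_distrib]
  linarith

/-- Codazzi -/
theorem codazzi (hx : x ∈ L.U) (l i j : Fin m) :
    inner ℝ (pd l L.f x) (pd i (pd j L.N) x) + ∑ k, Gam L.f k i j x * L.h x l k =
      - pd l (fun y => L.h y i j) x + ∑ p, Gam L.f p l j x * L.h x p i +
        ∑ p, Gam L.f p l i x * L.h x p j := by
  have h1 := L.pf_ppN hx l i j
  have h2 := L.pf_ppN hx j i l
  have h3 := L.pf_ppN hx j l i
  rw [pd_comm L.hU L.hN hx i l, h3] at h2
  have h4 : pd i (fun y => L.h y j l) x = pd i (fun y => L.h y l j) x :=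
    pd_congr L.hU (fun y hy => L.h_symm hy j l) hx i
  have h5 : pd l (fun y => L.h y j i) x = pd l (fun y => L.h y i j) x :=
    pd_congr L.hU (fun y hy => L.h_symm hy j i) hx l
  rw [h4, h5] at h2
  have h6 : ∑ p, Gam L.f p i l x * L.h x p j = ∑ p, Gam L.f p l i x * L.h x p j :=
    Finset.sum_congr rfl fun p _ => by rw [L.Gam_symm hx]
  have h7 : ∑ k, Gam L.f k i j x * L.h x l k = ∑ p, Gam L.f p i j x * L.h x p l :=
    Finset.sum_congr rfl fun p _ => by rw [L.h_symm hx]
  rw [h1, h6, h7]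
  linarith

/-- the derivative of the trace of the shape operator -/
theorem d_t (hx : x ∈ L.U) (l : Fin m) : pd l L.t x =
    ∑ i, ∑ j, (metric L.f x)⁻¹ i j * (pd l (fun y => L.h y i j) x -
      ∑ p, Gam L.f p l j x * L.h x p i - ∑ p, Gam L.f p l i x * L.h x p j) := by
  have h1 : L.t = fun x => ∑ i, ∑ j, (metric L.f x)⁻¹ i j * L.h x j i := funext L.t_eq
  have h2 : pd l L.t x = ∑ i, ∑ j, ((metric L.f x)⁻¹ i j * pd l (fun y => L.h y j i) x + L.h x j i *
      (- (∑ p, (metric L.f x)⁻¹ i p * Gam L.f j l p x) -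
        ∑ p, Gam L.f i l p x * (metric L.f x)⁻¹ p j)) := by
    rw [h1, pd_sum (fun i _ => dif L.hU (ContDiffOn.sum fun j _ => (L.sm_inv i j).mul (L.sm_h j i)) hx)]
    refine Finset.sum_congr rfl fun i _ => ?_
    rw [pd_sum (fun j _ => dif L.hU ((L.sm_inv i j).mul (L.sm_h j i)) hx)]
    refine Finset.sum_congr rfl fun j _ => ?_
    rw [pd_mul (dif L.hU (L.sm_inv i j) hx) (dif L.hU (L.sm_h j i) hx), L.dG_apply hx]
  have e0 : ∑ i, ∑ j, (metric L.f x)⁻¹ i j * pd l (fun y => L.h y j i) x =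
      ∑ i, ∑ j, (metric L.f x)⁻¹ i j * pd l (fun y => L.h y i j) x :=
    Finset.sum_congr rfl fun i _ => Finset.sum_congr rfl fun j _ => by
      rw [pd_congr L.hU (fun y hy => L.h_symm hy j i) hx l]
  have e1 : ∑ i, ∑ j, L.h x j i * ∑ p, (metric L.f x)⁻¹ i p * Gam L.f j l p x =
      ∑ i, ∑ j, (metric L.f x)⁻¹ i j * ∑ p, Gam L.f p l j x * L.h x p i := by
    refine Finset.sum_congr rfl fun i _ => ?_
    simp only [Finset.mul_sum]
    rw [Finset.sum_comm]
    refine Finset.sum_congr rfl fun j _ => Finset.sum_congr rfl fun p _ => ?_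
    ring
  have e2 : ∑ i, ∑ j, L.h x j i * ∑ p, Gam L.f i l p x * (metric L.f x)⁻¹ p j =
      ∑ i, ∑ j, (metric L.f x)⁻¹ i j * ∑ p, Gam L.f p l i x * L.h x p j := by
    simp only [Finset.mul_sum]
    have h3 : ∀ i, ∑ j, ∑ p, L.h x j i * (Gam L.f i l p x * (metric L.f x)⁻¹ p j) =
        ∑ p, ∑ j, L.h x j i * (Gam L.f i l p x * (metric L.f x)⁻¹ p j) := fun i => Finset.sum_comm
    rw [Finset.sum_congr rfl fun i _ => h3 i, Finset.sum_comm]
    refine Finset.sum_congr rfl fun p _ => ?_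
    rw [Finset.sum_comm]
    refine Finset.sum_congr rfl fun j _ => Finset.sum_congr rfl fun i _ => ?_
    rw [L.h_symm hx j i]
    ring
  rw [h2]
  simp only [Finset.sum_add_distrib, mul_sub, Finset.sum_sub_distrib, mul_neg,
    Finset.sum_neg_distrib]
  rw [e0, e1, e2]
  ring

theorem pf_cov_aa (hx : x ∈ L.U) (l i j : Fin m) :
    inner ℝ (pd l L.f x) (cov L.f i (L.aa j) x) =
      L.t x * inner ℝ (pd l L.f x) (pd i (pd j L.N) x) - pd i L.t x * L.h x l j -
        pd j L.t x * L.h x l i := by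
  have h1 : inner ℝ (pd l L.f x) (cov L.f i (L.aa j) x) =
      (inner ℝ (pd l L.f x) (pd i (L.aa j) x) : ℝ) := by
    unfold cov
    rw [inner_sub_right, real_inner_smul_right, L.pf_f hx]
    ring
  have h2 : pd i (L.aa j) x = (L.t x • pd i (pd j L.N) x + pd i L.t x • pd j L.N x) +
      (pd j L.t x • pd i L.N x + pd i (pd j L.t) x • L.N x) := by
    have h3 : L.aa j = fun y => L.t y • pd j L.N y + pd j L.t y • L.N y := rfl
    rw [h3, pd_add (V := fun y => L.t y • pd j L.N y) (W := fun y => pd j L.t y • L.N y)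
      (dif L.hU (L.sm_t.smul (L.smN j)) hx) (dif L.hU ((smp L.hU L.sm_t j).smul L.hN) hx),
      pd_smul (dif L.hU L.sm_t hx) (dif L.hU (L.smN j) hx),
      pd_smul (dif L.hU (smp L.hU L.sm_t j) hx) (dif L.hU L.hN hx)]
  rw [h1, h2]
  simp only [inner_add_right, real_inner_smul_right, L.pf_pN hx, L.pf_N hx]
  ring

/-- the bitension field -/
theorem bitension_eq (hx : x ∈ L.U) : bitension L.f x =
    (∑ i, ∑ j, (metric L.f x)⁻¹ i j • (cov L.f i (L.aa j) x - ∑ k, Gam L.f k i j x • L.aa k x)) +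
      ((m : ℝ) * L.t x) • L.N x := by
  unfold bitension trace
  have h1 : ∀ i j, cov L.f i (cov L.f j (tension L.f)) x = cov L.f i (L.aa j) x := fun i j =>
    L.cov_congr hx (fun y hy => L.cov_tension hy j) i
  have h2 : ∀ i j, curv (pd i L.f x) (tension L.f x) (pd j L.f x) =
      - (metric L.f x i j • (L.t x • L.N x)) := by
    intro i j
    unfold curv
    rw [L.tension_eq hx, real_inner_smul_left, L.NDf x hx, mul_zero, zero_smul, zero_sub]
    rfl
  have h3 : ∑ i, ∑ j, (metric L.f x)⁻¹ i j • curv (pd i L.f x) (tension L.f x) (pd j L.f x) =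
      - (((m : ℝ) * L.t x) • L.N x) := by
    simp only [h2, smul_neg, Finset.sum_neg_distrib, smul_smul]
    congr 1
    rw [← Finset.sum_congr rfl fun i _ => Finset.sum_smul, ← Finset.sum_smul]
    congr 1
    have h4 : ∑ i, ∑ j, (metric L.f x)⁻¹ i j * metric L.f x i j = m := by
      have h5 : ∀ i, ∑ j, (metric L.f x)⁻¹ i j * metric L.f x i j = 1 := by
        intro i
        have h6 : ∑ j, (metric L.f x)⁻¹ i j * metric L.f x j i = (1 : Matrix (Fin m) (Fin m) ℝ) i i := by
          rw [← L.inv_mul hx, Matrix.mul_apply]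
        rw [Matrix.one_apply_eq] at h6
        rw [← h6]
        exact Finset.sum_congr rfl fun j _ => by rw [metric_symm]
      rw [Finset.sum_congr rfl fun i _ => h5 i]
      simp
    have h7 : ∑ i, ∑ j, (metric L.f x)⁻¹ i j * (metric L.f x i j * L.t x) =
        (∑ i, ∑ j, (metric L.f x)⁻¹ i j * metric L.f x i j) * L.t x := by
      rw [Finset.sum_mul]
      refine Finset.sum_congr rfl fun i _ => ?_
      rw [Finset.sum_mul]
      exact Finset.sum_congr rfl fun j _ => by ring
    rw [h7, h4]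
  simp only [h1, L.cov_tension hx]
  rw [h3, sub_neg_eq_add]

/-- the normal part -/
theorem N_bitension (hx : x ∈ L.U) : inner ℝ (L.N x) (bitension L.f x) =
    (∑ i, ∑ j, (metric L.f x)⁻¹ i j * (pd i (pd j L.t) x - ∑ k, Gam L.f k i j x * pd k L.t x)) +
      ((m : ℝ) - (L.S x * L.S x).trace) * L.t x := by
  rw [L.bitension_eq hx]
  simp only [inner_add_right, inner_sum, real_inner_smul_right, inner_sub_right, L.N_cov_aa hx,
    L.N_aa hx, L.NN x hx]
  have h1 : ∑ i, ∑ j, (metric L.f x)⁻¹ i j * ∑ k, L.S x k i * L.h x k j = (L.S x * L.S x).trace := by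
    simp only [Matrix.trace, Matrix.diag_apply, Matrix.mul_apply]
    rw [Finset.sum_comm' (t' := Finset.univ) (s' := fun _ => Finset.univ) (by simp)]
    have h2 : ∀ i, ∑ j, (metric L.f x)⁻¹ i j * ∑ k, L.S x k i * L.h x k j =
        ∑ k, L.S x k i * L.S x i k := by
      intro i
      simp only [Finset.mul_sum]
      rw [Finset.sum_comm]
      refine Finset.sum_congr rfl fun k _ => ?_
      have h3 : L.S x i k = ∑ j, (metric L.f x)⁻¹ i j * L.h x j k := by
        rw [S, Matrix.mul_apply]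
      rw [h3, Finset.mul_sum]
      refine Finset.sum_congr rfl fun j _ => ?_
      rw [L.h_symm hx k j]
      ring
    rw [Finset.sum_comm, Finset.sum_congr rfl fun i _ => h2 i, Finset.sum_comm]
  have h4 : ∑ i, ∑ j, (metric L.f x)⁻¹ i j * (pd i (pd j L.t) x - L.t x * ∑ k, L.S x k i * L.h x k j
      - ∑ k, Gam L.f k i j x * pd k L.t x) =
      (∑ i, ∑ j, (metric L.f x)⁻¹ i j * (pd i (pd j L.t) x - ∑ k, Gam L.f k i j x * pd k L.t x)) -
        L.t x * ∑ i, ∑ j, (metric L.f x)⁻¹ i j * ∑ k, L.S x k i * L.h x k j := by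
    rw [Finset.mul_sum, ← Finset.sum_sub_distrib]
    refine Finset.sum_congr rfl fun i _ => ?_
    rw [Finset.mul_sum, ← Finset.sum_sub_distrib]
    refine Finset.sum_congr rfl fun j _ => ?_
    ring
  rw [h4, h1]
  ring

/-- the tangential part -/
theorem pf_bitension (hx : x ∈ L.U) (l : Fin m) : inner ℝ (pd l L.f x) (bitension L.f x) =
    - (2 * ∑ i, ∑ j, (metric L.f x)⁻¹ i j * (pd i L.t x * L.h x l j)) - L.t x * pd l L.t x := by
  rw [L.bitension_eq hx]
  simp only [inner_add_right, inner_sum, real_inner_smul_right, inner_sub_right, L.pf_cov_aa hx,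
    L.pf_aa hx, L.pf_N hx, mul_zero, add_zero]
  have h1 : ∑ i, ∑ j, (metric L.f x)⁻¹ i j * (pd j L.t x * L.h x l i) =
      ∑ i, ∑ j, (metric L.f x)⁻¹ i j * (pd i L.t x * L.h x l j) := by
    rw [Finset.sum_comm]
    refine Finset.sum_congr rfl fun i _ => Finset.sum_congr rfl fun j _ => ?_
    rw [inv_symm]
  have h2 : ∀ i j, L.t x * inner ℝ (pd l L.f x) (pd i (pd j L.N) x) - pd i L.t x * L.h x l j -
        pd j L.t x * L.h x l i - ∑ k, Gam L.f k i j x * -(L.t x * L.h x l k) =
      - (L.t x * (pd l (fun y => L.h y i j) x - ∑ p, Gam L.f p l j x * L.h x p i -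
        ∑ p, Gam L.f p l i x * L.h x p j)) - pd i L.t x * L.h x l j - pd j L.t x * L.h x l i := by
    intro i j
    have h3 := L.codazzi hx l i j
    have h4 : ∑ k, Gam L.f k i j x * -(L.t x * L.h x l k) =
        - (L.t x * ∑ k, Gam L.f k i j x * L.h x l k) := by
      rw [Finset.mul_sum, ← Finset.sum_neg_distrib]
      exact Finset.sum_congr rfl fun k _ => by ring
    rw [h4]
    have h5 : inner ℝ (pd l L.f x) (pd i (pd j L.N) x) =
      (- pd l (fun y => L.h y i j) x + ∑ p, Gam L.f p l j x * L.h x p i +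
        ∑ p, Gam L.f p l i x * L.h x p j) - ∑ k, Gam L.f k i j x * L.h x l k := by linarith
    rw [h5]
    ring
  have h6 : ∑ i, ∑ j, (metric L.f x)⁻¹ i j * (L.t x * inner ℝ (pd l L.f x) (pd i (pd j L.N) x) -
      pd i L.t x * L.h x l j - pd j L.t x * L.h x l i -
        ∑ k, Gam L.f k i j x * -(L.t x * L.h x l k)) =
      - (L.t x * ∑ i, ∑ j, (metric L.f x)⁻¹ i j * (pd l (fun y => L.h y i j) x -
        ∑ p, Gam L.f p l j x * L.h x p i - ∑ p, Gam L.f p l i x * L.h x p j)) -
        ∑ i, ∑ j, (metric L.f x)⁻¹ i j * (pd i L.t x * L.h x l j) -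
        ∑ i, ∑ j, (metric L.f x)⁻¹ i j * (pd j L.t x * L.h x l i) := by
    rw [Finset.mul_sum, ← Finset.sum_neg_distrib, ← Finset.sum_sub_distrib,
      ← Finset.sum_sub_distrib]
    refine Finset.sum_congr rfl fun i _ => ?_
    rw [Finset.mul_sum, ← Finset.sum_neg_distrib, ← Finset.sum_sub_distrib,
      ← Finset.sum_sub_distrib]
    refine Finset.sum_congr rfl fun j _ => ?_
    rw [h2 i j]
    ring
  rw [h6, ← L.d_t hx, h1]
  ring

end Patch

end

end BHM
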