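import Pool.Agent.BHM.Local3

/-!
# Constant mean curvature of biharmonic patches
-/

set_option autoImplicit false

namespace BHM

noncomputable section

variable {m : ℕ}

namespace Patch

variable (L : Patch m) {x : Co m}

/-- the mean curvature function -/
def H (x : Co m) : ℝ := (L.S x).trace / (m : ℝ)

theorem pd_H (hx : x ∈ L.U) (i : Fin m) : pd i L.H x = (1 / (m : ℝ)) * pd i L.t x := by
  have h1 : L.H = fun y => (1 / (m : ℝ)) * L.t y := by
    funext y
    show L.t y / (m : ℝ) = _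
    ring
  rw [h1, pd_mul (differentiableAt_const _) (dif L.hU L.sm_t hx), pd_const]
  ring

theorem sm_H : ContDiffOn ℝ sm L.H L.U := L.sm_t.div_const _

theorem ppd_H (hx : x ∈ L.U) (i j : Fin m) :
    pd i (pd j L.H) x = (1 / (m : ℝ)) * pd i (pd j L.t) x := by
  rw [pd_congr L.hU (fun y hy => L.pd_H hy j) hx i,
    pd_mul (differentiableAt_const _) (dif L.hU (smp L.hU L.sm_t j) hx), pd_const]
  ring

/-- the first equation -/
theorem eq1 (hx : x ∈ L.U) (hb : bitension L.f x = 0) :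
    (1 / Real.sqrt (metric L.f x).det) *
      ∑ i, pd i (fun y => Real.sqrt (metric L.f y).det *
        ∑ j, (metric L.f y)⁻¹ i j * pd j L.H y) x +
      ((m : ℝ) - (L.S x * L.S x).trace) * L.H x = 0 := by
  have h1 := L.N_bitension hx
  rw [hb, inner_zero_right] at h1
  rw [L.lap hx L.H L.sm_H]
  have h2 : ∑ i, ∑ j, (metric L.f x)⁻¹ i j * (pd i (pd j L.H) x - ∑ k, Gam L.f k i j x * pd k L.H x) =
      (1 / (m : ℝ)) * ∑ i, ∑ j, (metric L.f x)⁻¹ i j *
        (pd i (pd j L.t) x - ∑ k, Gam L.f k i j x * pd k L.t x) := by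
    rw [Finset.mul_sum]
    refine Finset.sum_congr rfl fun i _ => ?_
    rw [Finset.mul_sum]
    refine Finset.sum_congr rfl fun j _ => ?_
    rw [L.ppd_H hx]
    have h3 : ∑ k, Gam L.f k i j x * pd k L.H x = (1 / (m : ℝ)) * ∑ k, Gam L.f k i j x * pd k L.t x := by
      rw [Finset.mul_sum]
      refine Finset.sum_congr rfl fun k _ => ?_
      rw [L.pd_H hx]
      ring
    rw [h3]
    ring
  have h4 : L.H x = (1 / (m : ℝ)) * L.t x := by
    show L.t x / (m : ℝ) = _
    ring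
  rw [h2, h4]
  have h5 : (1 / (m : ℝ)) * ∑ i, ∑ j, (metric L.f x)⁻¹ i j *
        (pd i (pd j L.t) x - ∑ k, Gam L.f k i j x * pd k L.t x) +
      ((m : ℝ) - (L.S x * L.S x).trace) * ((1 / (m : ℝ)) * L.t x) = (1 / (m : ℝ)) *
      ((∑ i, ∑ j, (metric L.f x)⁻¹ i j *
        (pd i (pd j L.t) x - ∑ k, Gam L.f k i j x * pd k L.t x)) +
      ((m : ℝ) - (L.S x * L.S x).trace) * L.t x) := by ring
  rw [h5, ← h1, mul_zero]

/-- the second equation -/
theorem eq2 (hm : 0 < m) (hx : x ∈ L.U) (hb : bitension L.f x = 0) :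
    (2 : ℝ) • (L.S x).mulVec ((metric L.f x)⁻¹.mulVec (fun j : Fin m => pd j L.H x))
      + ((m : ℝ) * L.H x) • (metric L.f x)⁻¹.mulVec (fun j : Fin m => pd j L.H x) = 0 := by
  have hm' : (m : ℝ) ≠ 0 := by exact_mod_cast hm.ne'
  have h1 : (2 : ℝ) • (L.h x).mulVec ((metric L.f x)⁻¹.mulVec (fun j : Fin m => pd j L.H x))
      + ((m : ℝ) * L.H x) • (fun j : Fin m => pd j L.H x) = 0 := by
    ext l
    have h2 := L.pf_bitension hx l
    rw [hb, inner_zero_right] at h2
    have h3 : (L.h x).mulVec ((metric L.f x)⁻¹.mulVec (fun j : Fin m => pd j L.H x)) l =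
        (1 / (m : ℝ)) * ∑ i, ∑ j, (metric L.f x)⁻¹ i j * (pd i L.t x * L.h x l j) := by
      simp only [Matrix.mulVec, dotProduct, L.pd_H hx]
      rw [Finset.sum_comm, Finset.mul_sum]
      refine Finset.sum_congr rfl fun j _ => ?_
      rw [Finset.mul_sum, Finset.mul_sum]
      refine Finset.sum_congr rfl fun i _ => ?_
      rw [inv_symm L.f x i j]
      ring
    have h4 : (m : ℝ) * L.H x = L.t x := by
      show (m : ℝ) * (L.t x / (m : ℝ)) = L.t x
      field_simp
    rw [Pi.add_apply, Pi.smul_apply, Pi.smul_apply, h3, h4, L.pd_H hx, Pi.zero_apply, smul_eq_mul,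
      smul_eq_mul]
    have h5 : 2 * (1 / (m : ℝ) * ∑ i, ∑ j, (metric L.f x)⁻¹ i j * (pd i L.t x * L.h x l j)) +
        L.t x * (1 / (m : ℝ) * pd l L.t x) = - (1 / (m : ℝ)) *
        (- (2 * ∑ i, ∑ j, (metric L.f x)⁻¹ i j * (pd i L.t x * L.h x l j)) - L.t x * pd l L.t x) := by
      ring
    rw [h5, ← h2, mul_zero]
  have h6 := congrArg (fun v => (metric L.f x)⁻¹.mulVec v) h1
  simp only [Matrix.mulVec_add, Matrix.mulVec_smul, Matrix.mulVec_zero] at h6
  rw [Matrix.mulVec_mulVec] at h6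
  exact h6

/-- the mean curvature of a connected biharmonic patch is constant -/
theorem const (hc : IsConnected L.U) (hb : ∀ x ∈ L.U, bitension L.f x = 0) :
    ∃ c : ℝ, ∀ x ∈ L.U, L.H x = c := by
  rcases Nat.eq_zero_or_pos m with hm | hm
  · subst hm
    refine ⟨0, fun x _ => ?_⟩
    unfold H
    simp
  · refine BH.main_const m L.U L.f L.N L.hU hc L.hf L.hN ?_ (metric L.f) L.S L.H (fun x => rfl)
      (fun x => rfl) (fun x => rfl) ?_ ?_
    · intro x hx
      refine ⟨?_, ?_, L.Nf x hx, L.NDf x hx, L.li x hx⟩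
      · have h1 := L.ff x hx
        rw [real_inner_self_eq_norm_sq] at h1
        exact (pow_eq_one_iff_of_nonneg (norm_nonneg _) two_ne_zero).1 h1
      · have h1 := L.NN x hx
        rw [real_inner_self_eq_norm_sq] at h1
        exact (pow_eq_one_iff_of_nonneg (norm_nonneg _) two_ne_zero).1 h1
    · intro x hx
      exact L.eq1 hx (hb x hx)
    · intro x hx
      exact L.eq2 hm hx (hb x hx)

/-- the norm of the mean curvature vector -/
theorem norm_tension (hx : x ∈ L.U) : ‖(1 / (m : ℝ)) • tension L.f x‖ = |L.H x| := by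
  rw [L.tension_eq hx, smul_smul, norm_smul]
  have h1 : ‖L.N x‖ = 1 := by
    have h1 := L.NN x hx
    rw [real_inner_self_eq_norm_sq] at h1
    exact (pow_eq_one_iff_of_nonneg (norm_nonneg _) two_ne_zero).1 h1
  rw [h1, mul_one, Real.norm_eq_abs]
  congr 1
  show _ = L.t x / (m : ℝ)
  ring

end Patch

/-! ### existence of a unit normal -/

/-- a local parametrisation -/
structure PatchF (U : Set (Co m)) (f : Co m → Sp m) : Prop where
  hU : IsOpen U
  hf : ContDiffOn ℝ sm f U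
  ff : ∀ x ∈ U, inner ℝ (f x) (f x) = (1 : ℝ)
  li : ∀ x ∈ U, LinearIndependent ℝ fun i => pd i f x

namespace PatchF

variable {U : Set (Co m)} {f : Co m → Sp m} (P : PatchF U f) {x : Co m}
include P

theorem f_pf (hx : x ∈ U) (i : Fin m) : inner ℝ (f x) (pd i f x) = (0 : ℝ) := by
  have h1 := pd_inner (dif P.hU P.hf hx) (dif P.hU P.hf hx) i
  rw [pd_congr P.hU P.ff hx, pd_const, real_inner_comm] at h1
  linarith

theorem det_pos (hx : x ∈ U) : 0 < (metric f x).det :=
  (Matrix.posDef_gram_of_linearIndependent (𝕜 := ℝ) (P.li x hx)).det_pos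

theorem sm_metric (i j : Fin m) : ContDiffOn ℝ sm (fun y => metric f y i j) U := by
  unfold metric
  simp only [Matrix.of_apply]
  exact (smp P.hU P.hf i).inner ℝ (smp P.hU P.hf j)

theorem sm_inv (i j : Fin m) : ContDiffOn ℝ sm (fun y => (metric f y)⁻¹ i j) U :=
  BH.Geo3.inv_smooth (fun i j => P.sm_metric i j) (fun _ hx => (P.det_pos hx).ne') i j

/-- a constant vector, projected to the normal space -/
theorem exists_normal (x₀ : Co m) (hx₀ : x₀ ∈ U) :
    ∃ (L : Patch m), L.f = f ∧ x₀ ∈ L.U ∧ L.U ⊆ U ∧ IsConnected L.U := by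
  classical
  -- a vector orthogonal to `f x₀` and the tangent vectors
  obtain ⟨n, hn0, hnf, hnt⟩ : ∃ n : Sp m, n ≠ 0 ∧ inner ℝ (f x₀) n = (0 : ℝ) ∧
      ∀ i, inner ℝ (pd i f x₀) n = (0 : ℝ) := by
    let b : Fin (m + 1) → Sp m := Fin.cons (f x₀) fun i => pd i f x₀
    have hlt : Module.finrank ℝ (Submodule.span ℝ (Set.range b)) < Module.finrank ℝ (Sp m) := by
      have h1 := finrank_range_le_card (R := ℝ) b
      have h2 : Module.finrank ℝ (Sp m) = m + 2 := by simp
      rw [h2]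
      rw [Fintype.card_fin] at h1
      exact lt_of_le_of_lt h1 (by omega)
    have hne : (Submodule.span ℝ (Set.range b))ᗮ ≠ ⊥ := by
      intro h1
      rw [Submodule.orthogonal_eq_bot_iff] at h1
      rw [h1, finrank_top] at hlt
      exact lt_irrefl _ hlt
    obtain ⟨n, hn, hn0⟩ := Submodule.exists_mem_ne_zero_of_ne_bot hne
    refine ⟨n, hn0, ?_, fun i => ?_⟩
    · exact hn _ (Submodule.subset_span ⟨0, rfl⟩)
    · exact hn _ (Submodule.subset_span ⟨i.succ, rfl⟩)
  let p : Co m → Sp m := fun y => n - (inner ℝ (f y) n : ℝ) • f y -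
    ∑ i, ∑ j, ((metric f y)⁻¹ i j * inner ℝ (pd j f y) n) • pd i f y
  have hp : ContDiffOn ℝ sm p U := by
    refine (contDiffOn_const.sub ?_).sub ?_
    · exact (P.hf.inner ℝ contDiffOn_const).smul P.hf
    · exact ContDiffOn.sum fun i _ => ContDiffOn.sum fun j _ =>
        ((P.sm_inv i j).mul ((smp P.hU P.hf j).inner ℝ contDiffOn_const)).smul (smp P.hU P.hf i)
  have hp0 : p x₀ = n := by
    simp only [p, hnf, hnt, mul_zero, zero_smul, Finset.sum_const_zero, sub_zero]
  have hpf : ∀ y ∈ U, inner ℝ (f y) (p y) = (0 : ℝ) := by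
    intro y hy
    simp only [p, inner_sub_right, real_inner_smul_right, inner_sum, P.ff y hy, P.f_pf hy, mul_zero,
      Finset.sum_const_zero]
    ring
  have hpt : ∀ y ∈ U, ∀ k, inner ℝ (pd k f y) (p y) = (0 : ℝ) := by
    intro y hy k
    have h0 : inner ℝ (pd k f y) (f y) = (0 : ℝ) := by
      rw [real_inner_comm]
      exact P.f_pf hy k
    have h1 : ∑ i, ∑ j, ((metric f y)⁻¹ i j * inner ℝ (pd j f y) n) * inner ℝ (pd k f y) (pd i f y) =
        inner ℝ (pd k f y) n := by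
      rw [Finset.sum_comm]
      have h2 : ∀ j, ∑ i, ((metric f y)⁻¹ i j * inner ℝ (pd j f y) n) *
          inner ℝ (pd k f y) (pd i f y) =
          (1 : Matrix (Fin m) (Fin m) ℝ) k j * inner ℝ (pd j f y) n := by
        intro j
        rw [← Matrix.mul_nonsing_inv _ (P.det_pos hy).ne'.isUnit, Matrix.mul_apply, Finset.sum_mul]
        refine Finset.sum_congr rfl fun i _ => ?_
        have h3 : metric f y k i = inner ℝ (pd k f y) (pd i f y) := rfl
        rw [h3]
        ring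
      rw [Finset.sum_congr rfl fun j _ => h2 j]
      simp [Matrix.one_apply]
    simp only [p, inner_sub_right, real_inner_smul_right, inner_sum, h0, h1, mul_zero, sub_zero,
      sub_self]
  -- the open set
  have hV : IsOpen (U ∩ p ⁻¹' {0}ᶜ) := hp.continuousOn.isOpen_inter_preimage P.hU
    isOpen_compl_singleton
  have hxV : x₀ ∈ U ∩ p ⁻¹' {0}ᶜ := ⟨hx₀, by
    show p x₀ ≠ 0
    rw [hp0]
    exact hn0⟩
  obtain ⟨r, hr, hball⟩ := Metric.isOpen_iff.1 hV x₀ hxV
  have hb1 : ∀ y ∈ Metric.ball x₀ r, y ∈ U := fun y hy => (hball hy).1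
  have hb2 : ∀ y ∈ Metric.ball x₀ r, p y ≠ 0 := fun y hy => (hball hy).2
  refine ⟨⟨Metric.ball x₀ r, f, fun y => (‖p y‖)⁻¹ • p y, Metric.isOpen_ball, P.hf.mono hb1, ?_,
    fun y hy => P.ff y (hb1 y hy), ?_, ?_, ?_, fun y hy => P.li y (hb1 y hy)⟩, rfl,
    Metric.mem_ball_self hr, hb1, ?_⟩
  · have h1 : ContDiffOn ℝ sm (fun y => ‖p y‖) (Metric.ball x₀ r) :=
      (hp.mono hb1).norm ℝ hb2
    exact (h1.inv fun y hy => norm_ne_zero_iff.2 (hb2 y hy)).smul (hp.mono hb1)
  · intro y hy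
    have h1 : ‖p y‖ ≠ 0 := norm_ne_zero_iff.2 (hb2 y hy)
    rw [real_inner_smul_left, real_inner_smul_right, real_inner_self_eq_norm_sq]
    field_simp
  · intro y hy
    rw [real_inner_smul_left, real_inner_comm, hpf y (hb1 y hy), mul_zero]
  · intro y hy i
    rw [real_inner_smul_left, real_inner_comm, hpt y (hb1 y hy) i, mul_zero]
  · exact (convex_ball x₀ r).isConnected ⟨x₀, Metric.mem_ball_self hr⟩

/-- locally constant -/
theorem locally_const (x₀ : Co m) (hx₀ : x₀ ∈ U) (hb : ∀ x ∈ U, bitension f x = 0) :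
    ∃ W : Set (Co m), IsOpen W ∧ x₀ ∈ W ∧ W ⊆ U ∧
      ∀ x ∈ W, ‖(1 / (m : ℝ)) • tension f x‖ = ‖(1 / (m : ℝ)) • tension f x₀‖ := by
  obtain ⟨L, hL, h0, hs, hc⟩ := P.exists_normal x₀ hx₀
  subst hL
  obtain ⟨c, hcc⟩ := L.const hc fun x hx => hb x (hs hx)
  refine ⟨L.U, L.hU, h0, hs, fun x hx => ?_⟩
  rw [L.norm_tension hx, L.norm_tension h0, hcc x hx, hcc x₀ h0]

end PatchF

end

end BHM
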