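import Pool.Agent.BHM.Local4

/-!
# Biharmonic hypersurfaces of the sphere: from local coordinates to manifolds
-/

set_option autoImplicit false

namespace BHM

open scoped Manifold ContDiff

noncomputable section

variable {m : ℕ}

/-! ### change of coordinates -/

/-- the partial derivatives of a composition -/
theorem pd_comp {F : Type} [NormedAddCommGroup F] [NormedSpace ℝ F] {V : Co m → F}
    {ψ : Co m → Co m} {x : Co m} (hV : DifferentiableAt ℝ V (ψ x)) (hψ : DifferentiableAt ℝ ψ x)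
    (i : Fin m) : pd i (fun y => V (ψ y)) x = ∑ a, pd i ψ x a • pd a V (ψ x) := by
  unfold pd
  have h1 : fderiv ℝ (fun y => V (ψ y)) x = (fderiv ℝ V (ψ x)).comp (fderiv ℝ ψ x) :=
    fderiv_comp x hV hψ
  rw [h1, ContinuousLinearMap.comp_apply]
  exact BH.Setup.lin_ee (fderiv ℝ V (ψ x)) _

namespace Patch

variable (L : Patch m)

/-- the patch in other coordinates -/
def pull (ψ : Co m → Co m) (W : Set (Co m)) (hW : IsOpen W) (hψ : ContDiffOn ℝ sm ψ W)
    (hm : ∀ x ∈ W, ψ x ∈ L.U)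
    (hli : ∀ x ∈ W, LinearIndependent ℝ fun i => pd i (fun y => L.f (ψ y)) x) : Patch m where
  U := W
  f := fun y => L.f (ψ y)
  N := fun y => L.N (ψ y)
  hU := hW
  hf := L.hf.comp hψ hm
  hN := L.hN.comp hψ hm
  ff x hx := L.ff _ (hm x hx)
  NN x hx := L.NN _ (hm x hx)
  Nf x hx := L.Nf _ (hm x hx)
  NDf x hx i := by
    rw [pd_comp (dif L.hU L.hf (hm x hx)) (dif hW hψ hx), inner_sum]
    refine Finset.sum_eq_zero fun a _ => ?_
    rw [real_inner_smul_right, L.NDf _ (hm x hx), mul_zero]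
  li := hli

theorem tension_pull (ψ : Co m → Co m) (W : Set (Co m)) (hW : IsOpen W)
    (hψ : ContDiffOn ℝ sm ψ W) (hm : ∀ x ∈ W, ψ x ∈ L.U)
    (hli : ∀ x ∈ W, LinearIndependent ℝ fun i => pd i (fun y => L.f (ψ y)) x) {x : Co m}
    (hx : x ∈ W) : tension (fun y => L.f (ψ y)) x = tension L.f (ψ x) := by
  set L' := L.pull ψ W hW hψ hm hli with hL'
  have h0 : tension L'.f x = L'.t x • L'.N x := L'.tension_eq hx
  have h1 : tension L.f (ψ x) = L.t (ψ x) • L.N (ψ x) := L.tension_eq (hm x hx)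
  let J : Matrix (Fin m) (Fin m) ℝ := Matrix.of fun a i => pd i ψ x a
  have hf' : ∀ i, pd i L'.f x = ∑ a, J a i • pd a L.f (ψ x) := fun i =>
    pd_comp (dif L.hU L.hf (hm x hx)) (dif hW hψ hx) i
  have hN' : ∀ i, pd i L'.N x = ∑ a, J a i • pd a L.N (ψ x) := fun i =>
    pd_comp (dif L.hU L.hN (hm x hx)) (dif hW hψ hx) i
  have hg : metric L'.f x = J.transpose * metric L.f (ψ x) * J := by
    ext i j
    have e1 : metric L'.f x i j = inner ℝ (pd i L'.f x) (pd j L'.f x) := rfl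
    rw [e1, hf' i, hf' j, sum_inner, Matrix.mul_apply]
    simp only [Matrix.mul_apply, Matrix.transpose_apply, Finset.sum_mul]
    rw [Finset.sum_comm]
    refine Finset.sum_congr rfl fun a _ => ?_
    rw [real_inner_smul_left, inner_sum, Finset.mul_sum]
    refine Finset.sum_congr rfl fun b _ => ?_
    rw [real_inner_smul_right]
    have e2 : metric L.f (ψ x) a b = inner ℝ (pd a L.f (ψ x)) (pd b L.f (ψ x)) := rfl
    rw [e2]
    ring
  have hh : L'.h x = J.transpose * L.h (ψ x) * J := by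
    ext i j
    have e1 : L'.h x i j = - inner ℝ (pd i L'.f x) (pd j L'.N x) := by
      rw [L'.pf_pN hx, neg_neg]
    rw [e1, hf' i, hN' j, sum_inner, Matrix.mul_apply]
    simp only [Matrix.mul_apply, Matrix.transpose_apply, Finset.sum_mul]
    rw [Finset.sum_comm, ← Finset.sum_neg_distrib]
    refine Finset.sum_congr rfl fun a _ => ?_
    rw [real_inner_smul_left, inner_sum, Finset.mul_sum, ← Finset.sum_neg_distrib]
    refine Finset.sum_congr rfl fun b _ => ?_
    rw [real_inner_smul_right, L.pf_pN (hm x hx)]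
    ring
  have hdet : IsUnit J.det := by
    have h2 := (L'.det_pos hx).ne'
    rw [hg, Matrix.det_mul, Matrix.det_mul] at h2
    exact (right_ne_zero_of_mul h2).isUnit
  have hdetT : IsUnit J.transpose.det := by rwa [Matrix.det_transpose]
  have ht : L'.t x = L.t (ψ x) := by
    have e1 : L'.t x = ((metric L'.f x)⁻¹ * L'.h x).trace := rfl
    have e2 : L.t (ψ x) = ((metric L.f (ψ x))⁻¹ * L.h (ψ x)).trace := rfl
    have hJ : J.transpose⁻¹ * J.transpose = 1 := Matrix.nonsing_inv_mul _ hdetT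
    have hJ2 : J * J⁻¹ = 1 := Matrix.mul_nonsing_inv _ hdet
    rw [e1, e2, hg, hh, Matrix.mul_inv_rev, Matrix.mul_inv_rev]
    have e3 : J⁻¹ * ((metric L.f (ψ x))⁻¹ * J.transpose⁻¹) * (J.transpose * L.h (ψ x) * J) =
        J⁻¹ * ((metric L.f (ψ x))⁻¹ * L.h (ψ x) * J) := by
      calc J⁻¹ * ((metric L.f (ψ x))⁻¹ * J.transpose⁻¹) * (J.transpose * L.h (ψ x) * J)
          = J⁻¹ * ((metric L.f (ψ x))⁻¹ * (J.transpose⁻¹ * J.transpose) * L.h (ψ x) * J) := by
            simp only [mul_assoc]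
        _ = _ := by rw [hJ, mul_one]
    rw [e3, Matrix.trace_mul_comm, mul_assoc, hJ2, mul_one]
  have h2 : tension (fun y => L.f (ψ y)) x = tension L'.f x := rfl
  rw [h2, h0, h1, ht]
  rfl

end Patch

/-! ### charts -/

variable {M : Type*} [TopologicalSpace M] [ChartedSpace (EuclideanSpace ℝ (Fin m)) M]
  [IsManifold (𝓡 m) ∞ M]

/-- the domain of the coordinates -/
def dom (e : OpenPartialHomeomorph M (EuclideanSpace ℝ (Fin m))) : Set (Co m) :=
  {x | WithLp.toLp 2 x ∈ e.target}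

theorem isOpen_dom (e : OpenPartialHomeomorph M (EuclideanSpace ℝ (Fin m))) : IsOpen (dom e) :=
  e.open_target.preimage (PiLp.continuous_toLp 2 _)

theorem mdiff {e : OpenPartialHomeomorph M (EuclideanSpace ℝ (Fin m))}
    (he : e ∈ IsManifold.maximalAtlas (𝓡 m) ∞ M) : e.MDifferentiable (𝓡 m) (𝓡 m) :=
  ⟨(contMDiffOn_of_mem_maximalAtlas he).mdifferentiableOn (by simp),
    (contMDiffOn_symm_of_mem_maximalAtlas he).mdifferentiableOn (by simp)⟩

/-- the linear isomorphism -/
def lin (m : ℕ) : (Co m) →L[ℝ] EuclideanSpace ℝ (Fin m) :=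
  (PiLp.continuousLinearEquiv 2 ℝ (fun _ : Fin m => ℝ)).symm.toContinuousLinearMap

theorem lin_apply (x : Co m) : lin m x = WithLp.toLp 2 x := rfl

theorem patchF {φ : M → Sp m} (hφ : Hypersurface φ)
    {e : OpenPartialHomeomorph M (EuclideanSpace ℝ (Fin m))}
    (he : e ∈ IsManifold.maximalAtlas (𝓡 m) ∞ M) : PatchF (dom e) (loc φ e) := by
  have hsm : ContMDiff (𝓡 m) 𝓘(ℝ, Sp m) ∞ φ := hφ.smooth
  have h1 : ContMDiffOn (𝓡 m) 𝓘(ℝ, Sp m) ∞ (φ ∘ e.symm) e.target :=
    hsm.comp_contMDiffOn (contMDiffOn_symm_of_mem_maximalAtlas he)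
  have h2 : ContDiffOn ℝ ∞ (φ ∘ e.symm) e.target := contMDiffOn_iff_contDiffOn.1 h1
  have h3 : ContDiffOn ℝ sm (loc φ e) (dom e) :=
    h2.comp (lin m).contDiff.contDiffOn fun x hx => hx
  refine ⟨isOpen_dom e, h3, ?_, ?_⟩
  · intro x _
    rw [real_inner_self_eq_norm_sq]
    show ‖φ _‖ ^ 2 = 1
    rw [hφ.sphere]
    norm_num
  · intro x hx
    have hx' : WithLp.toLp 2 x ∈ e.target := hx
    have h4 : DifferentiableAt ℝ (φ ∘ e.symm) (lin m x) :=
      (h2.contDiffAt (e.open_target.mem_nhds hx')).differentiableAt (by simp)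
    have h5 : fderiv ℝ (loc φ e) x = (fderiv ℝ (φ ∘ e.symm) (lin m x)).comp (lin m) := by
      have h6 : loc φ e = (φ ∘ e.symm) ∘ (lin m) := rfl
      rw [h6, fderiv_comp x h4 (lin m).differentiableAt, (lin m).fderiv]
    have h7 : Function.Injective (fderiv ℝ (φ ∘ e.symm) (lin m x)) := by
      have h8 : mfderiv (𝓡 m) 𝓘(ℝ, Sp m) (φ ∘ e.symm) (lin m x) =
          (mfderiv (𝓡 m) 𝓘(ℝ, Sp m) φ (e.symm (lin m x))).comp
            (mfderiv (𝓡 m) (𝓡 m) e.symm (lin m x)) := by
        refine mfderiv_comp (lin m x) ?_ ((mdiff he).mdifferentiableAt_symm hx')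
        exact (hsm _).mdifferentiableAt (by simp)
      have h9 : Function.Injective (mfderiv (𝓡 m) (𝓡 m) e.symm (lin m x)) :=
        (mdiff he).symm.mfderiv_injective hx'
      have h10 := (hφ.immersion (e.symm (lin m x))).comp h9
      rw [← mfderiv_eq_fderiv, h8]
      exact h10
    have h11 : Function.Injective (fderiv ℝ (loc φ e) x) := by
      rw [h5]
      exact h7.comp (PiLp.continuousLinearEquiv 2 ℝ (fun _ : Fin m => ℝ)).symm.injective
    have h12 : LinearIndependent ℝ (fun i : Fin m => (Pi.single i (1 : ℝ) : Co m)) := by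
      have h13 := (Pi.basisFun ℝ (Fin m)).linearIndependent
      convert h13 using 1
      funext i
      rw [Pi.basisFun_apply]
    exact h12.map' (fderiv ℝ (loc φ e) x).toLinearMap (LinearMap.ker_eq_bot.2 h11)

/-- the tension field does not depend on the chart -/
theorem tension_chart {φ : M → Sp m} (hφ : Hypersurface φ)
    {e e' : OpenPartialHomeomorph M (EuclideanSpace ℝ (Fin m))}
    (he : e ∈ IsManifold.maximalAtlas (𝓡 m) ∞ M) (he' : e' ∈ IsManifold.maximalAtlas (𝓡 m) ∞ M)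
    {p : M} (hp : p ∈ e.source) (hp' : p ∈ e'.source) :
    tension (loc φ e') (WithLp.ofLp (e' p)) = tension (loc φ e) (WithLp.ofLp (e p)) := by
  have hP := patchF hφ he
  have hP' := patchF hφ he'
  have hx0 : WithLp.ofLp (e p) ∈ dom e := by
    show WithLp.toLp 2 (WithLp.ofLp (e p)) ∈ e.target
    exact e.map_source hp
  obtain ⟨L, hL, h0, hs, -⟩ := hP.exists_normal _ hx0
  -- the change of coordinates
  set ψ : Co m → Co m := fun y => WithLp.ofLp (e (e'.symm (WithLp.toLp 2 y))) with hψd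
  set W0 : Set (EuclideanSpace ℝ (Fin m)) := e'.target ∩ e'.symm ⁻¹' e.source with hW0
  have hW0o : IsOpen W0 := e'.isOpen_inter_preimage_symm e.open_source
  have hc : ContDiffOn ℝ ∞ (fun z => e (e'.symm z)) W0 := by
    have h1 : ContMDiffOn (𝓡 m) (𝓡 m) ∞ (fun z => e (e'.symm z)) W0 :=
      (contMDiffOn_of_mem_maximalAtlas he).comp ((contMDiffOn_symm_of_mem_maximalAtlas he').mono
        Set.inter_subset_left) fun z hz => hz.2
    exact contMDiffOn_iff_contDiffOn.1 h1
  have hψ0 : ContDiffOn ℝ sm ψ (WithLp.toLp 2 ⁻¹' W0) := by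
    have h1 : ContDiffOn ℝ sm (fun y => e (e'.symm (WithLp.toLp 2 y))) (WithLp.toLp 2 ⁻¹' W0) :=
      hc.comp (lin m).contDiff.contDiffOn fun x hx => hx
    exact (PiLp.continuousLinearEquiv 2 ℝ (fun _ : Fin m => ℝ)).contDiff.comp_contDiffOn h1
  have hW1 : IsOpen ((WithLp.toLp 2 ⁻¹' W0 : Set (Co m))) :=
    hW0o.preimage (PiLp.continuous_toLp 2 _)
  set W : Set (Co m) := (WithLp.toLp 2 ⁻¹' W0) ∩ ψ ⁻¹' L.U with hWd
  have hWo : IsOpen W := hψ0.continuousOn.isOpen_inter_preimage hW1 L.hU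
  have hxW : WithLp.ofLp (e' p) ∈ W := by
    have h1 : WithLp.toLp 2 (WithLp.ofLp (e' p)) = e' p := rfl
    refine ⟨⟨?_, ?_⟩, ?_⟩
    · rw [h1]
      exact e'.map_source hp'
    · show e'.symm (WithLp.toLp 2 (WithLp.ofLp (e' p))) ∈ e.source
      rw [h1, e'.left_inv hp']
      exact hp
    · show WithLp.ofLp (e (e'.symm (WithLp.toLp 2 (WithLp.ofLp (e' p))))) ∈ L.U
      rw [h1, e'.left_inv hp']
      exact h0
  have hff : ∀ y ∈ W, loc φ e' y = L.f (ψ y) := by
    intro y hy
    rw [hL]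
    show φ (e'.symm (WithLp.toLp 2 y)) = φ (e.symm (WithLp.toLp 2 (WithLp.ofLp (e _))))
    rw [show WithLp.toLp 2 (WithLp.ofLp (e (e'.symm (WithLp.toLp 2 y)))) =
      e (e'.symm (WithLp.toLp 2 y)) from rfl, e.left_inv hy.1.2]
  have hli : ∀ x ∈ W, LinearIndependent ℝ fun i => pd i (fun y => L.f (ψ y)) x := by
    intro x hx
    have h1 := hP'.li x hx.1.1
    have h2 : (fun i => pd i (fun y => L.f (ψ y)) x) = fun i => pd i (loc φ e') x := by
      funext i
      exact (pd_congr hWo hff hx i).symm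
    rw [h2]
    exact h1
  have h3 := L.tension_pull ψ W hWo (hψ0.mono Set.inter_subset_left) (fun x hx => hx.2) hli hxW
  -- the tension field of `loc φ e'` and of `L.f ∘ ψ` agree
  have h4 : tension (loc φ e') (WithLp.ofLp (e' p)) =
      tension (fun y => L.f (ψ y)) (WithLp.ofLp (e' p)) := by
    have hg : ∀ y ∈ W, metric (loc φ e') y = metric (fun y => L.f (ψ y)) y := by
      intro y hy
      ext i j
      show inner ℝ (pd i (loc φ e') y) (pd j (loc φ e') y) = _
      rw [pd_congr hWo hff hy, pd_congr hWo hff hy]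
      rfl
    have hG : ∀ k i j, Gam (loc φ e') k i j (WithLp.ofLp (e' p)) =
        Gam (fun y => L.f (ψ y)) k i j (WithLp.ofLp (e' p)) := by
      intro k i j
      unfold Gam
      rw [hg _ hxW]
      congr 1
      refine Finset.sum_congr rfl fun l _ => ?_
      rw [pd_congr hWo (fun y hy => by rw [hg y hy]) hxW i,
        pd_congr hWo (fun y hy => by rw [hg y hy]) hxW j,
        pd_congr hWo (fun y hy => by rw [hg y hy]) hxW l]
    unfold tension trace
    refine Finset.sum_congr rfl fun i _ => Finset.sum_congr rfl fun j _ => ?_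
    rw [hg _ hxW]
    have hpj : ∀ y ∈ W, pd j (loc φ e') y = pd j (fun y => L.f (ψ y)) y := fun y hy =>
      pd_congr hWo hff hy j
    congr 2
    · unfold cov
      rw [pd_congr hWo hpj hxW i, hff _ hxW]
    · refine Finset.sum_congr rfl fun k _ => ?_
      rw [hG]
      exact congrArg _ (pd_congr hWo hff hxW k)
  have h5 : ψ (WithLp.ofLp (e' p)) = WithLp.ofLp (e p) := by
    show WithLp.ofLp (e (e'.symm (WithLp.toLp 2 (WithLp.ofLp (e' p))))) = _
    rw [show WithLp.toLp 2 (WithLp.ofLp (e' p)) = e' p from rfl, e'.left_inv hp']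
  rw [h4, h3, h5, hL]

/-- constant mean curvature -/
theorem cmc [PreconnectedSpace M] {φ : M → Sp m} (hφ : Hypersurface φ) (hb : Biharmonic φ) :
    ∃ c : ℝ, ∀ e ∈ IsManifold.maximalAtlas (𝓡 m) ∞ M, ∀ p ∈ e.source,
      ‖meanCurvature φ e p‖ = c := by
  rcases isEmpty_or_nonempty M with hM | hM
  · exact ⟨0, fun e _ p => (hM.false p).elim⟩
  let q : M → ℝ := fun p => ‖meanCurvature φ (chartAt (EuclideanSpace ℝ (Fin m)) p) p‖
  have hchart : ∀ p : M, chartAt (EuclideanSpace ℝ (Fin m)) p ∈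
      IsManifold.maximalAtlas (𝓡 m) ∞ M := fun p => IsManifold.chart_mem_maximalAtlas p
  have hq : ∀ e ∈ IsManifold.maximalAtlas (𝓡 m) ∞ M, ∀ p ∈ e.source,
      ‖meanCurvature φ e p‖ = q p := by
    intro e he p hp
    show ‖meanCurvature φ e p‖ = ‖meanCurvature φ (chartAt (EuclideanSpace ℝ (Fin m)) p) p‖
    unfold meanCurvature
    rw [tension_chart hφ (hchart p) he (mem_chart_source _ p) hp]
  have hloc : IsLocallyConstant q := by
    rw [IsLocallyConstant.iff_exists_open]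
    intro p₀
    set e := chartAt (EuclideanSpace ℝ (Fin m)) p₀ with he
    have hx0 : WithLp.ofLp (e p₀) ∈ dom e := e.map_source (mem_chart_source _ p₀)
    obtain ⟨W, hW, h0, hs, hc⟩ := (patchF hφ (hchart p₀)).locally_const _ hx0 (by
      intro x hx
      have h1 := hb e (chart_mem_atlas _ p₀) (e.symm (WithLp.toLp 2 x)) (e.map_target hx)
      rw [e.right_inv hx] at h1
      exact h1)
    refine ⟨e.source ∩ e ⁻¹' (WithLp.ofLp ⁻¹' W), ?_, ⟨mem_chart_source _ p₀, h0⟩, ?_⟩
    · exact e.isOpen_inter_preimage (hW.preimage (PiLp.continuous_ofLp 2 _))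
    · intro p hp
      rw [← hq e (hchart p₀) p hp.1, ← hq e (hchart p₀) p₀ (mem_chart_source _ p₀)]
      exact hc _ hp.2
  obtain ⟨p₁⟩ := hM
  refine ⟨q p₁, fun e he p hp => ?_⟩
  rw [hq e he p hp]
  exact hloc.apply_eq_of_preconnectedSpace _ _

end

end BHM
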